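import Pool.Agent.H301X.FR.Stmts

/-!
# TaskFirst of the project H301-FR: the first vector of the Frenet frame
-/

set_option autoImplicit false

open Real InnerProductSpace
open scoped ContDiff RealInnerProductSpace

namespace Pool.Agent.H760R3.FRFirst

open Pool.Agent.H110R3.Mu Pool.Agent.H301X.FR

theorem taskFirst : TaskFirst := by
  intro n h0 γ _ hnd
  have hne : ∀ t, deriv γ t ≠ 0 := by
    intro t h
    have h1 := (hnd t).ne_zero (⟨0, h0⟩ : Fin n)
    apply h1
    simpa [iteratedDeriv_one] using h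
  refine ⟨fun t => norm_pos_iff.mpr (hne t), fun t => ?_⟩
  obtain ⟨m, rfl⟩ : ∃ m, n = m + 1 := ⟨n - 1, by omega⟩
  have hgs : gramSchmidt ℝ (fun k : Fin (m + 1) => iteratedDeriv (k + 1) γ t) ⟨0, h0⟩
      = deriv γ t := by
    have h2 := gramSchmidt_bot (𝕜 := ℝ)
      (f := fun k : Fin (m + 1) => iteratedDeriv ((k : ℕ) + 1) γ t)
    have h3 : (⊥ : Fin (m + 1)) = ⟨0, h0⟩ := rfl
    rw [h3] at h2
    rw [h2]
    simp [iteratedDeriv_one]
  have hn : ‖deriv γ t‖ ≠ 0 := norm_ne_zero_iff.mpr (hne t)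
  unfold frenet gramSchmidtNormed
  rw [hgs, smul_smul]
  simp [hn]

end Pool.Agent.H760R3.FRFirst

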