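import Mathlib
import Pool.Agent.H883R3.Filt.Basic

open Set Cardinal Filter

namespace H883F

universe u

theorem t1_aux {Ω : Type u} (M : Subgroup (Equiv.Perm Ω)) (A B : Set Ω)
    (hA : ∀ g : Equiv.Perm Ω, (∀ x ∉ A, g x = x) → g ∈ M)
    (hB : ∀ g : Equiv.Perm Ω, (∀ x ∉ B, g x = x) → g ∈ M)
    (g : Equiv.Perm Ω) (hg : ∀ x ∉ A ∪ B, g x = x)
    (hc : #↥(B \ A) ≤ #↥((A ∩ B) \ g '' (B \ A))) : g ∈ M := by
  classical
  obtain ⟨q, hq, hqC⟩ := exists_injOn hc
  have hqA : ∀ b ∈ B \ A, q b ∈ A := fun b hb => (hqC ⟨b, hb, rfl⟩).1.1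
  have hqB : ∀ b ∈ B \ A, q b ∈ B := fun b hb => (hqC ⟨b, hb, rfl⟩).1.2
  have hqP : ∀ b ∈ B \ A, ∀ b' ∈ B \ A, q b ≠ g b' := by
    intro b hb b' hb' h
    exact (hqC ⟨b, hb, rfl⟩).2 ⟨b', hb', h.symm⟩
  have hgAB : ∀ x ∈ A ∪ B, g x ∈ A ∪ B := by
    intro x hx
    by_contra h
    have := hg _ h
    have h2 : g x = x := g.injective this
    rw [h2] at h
    exact h hx
  -- s1
  have hd : Disjoint (B \ A) (q '' (B \ A)) := by
    rw [Set.disjoint_left]
    rintro x hx ⟨b, hb, rfl⟩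
    exact hx.2 (hqA b hb)
  obtain ⟨s1, s11, s12, s13⟩ := exists_swap (B \ A) q hq hd
  -- s2
  have hinj : ∀ S : Set Ω, S ⊆ B \ A →
      Function.Injective (Sum.elim (fun x : S => q x) (fun x : S => g x)) := by
    intro S hS a b hab
    cases a with
    | inl a =>
      cases b with
      | inl b =>
        have hab' : q a = q b := hab
        exact congrArg Sum.inl (Subtype.ext (hq (hS a.2) (hS b.2) hab'))
      | inr b =>
        exfalso
        have hab' : q a = g b := hab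
        exact hqP _ (hS a.2) _ (hS b.2) hab'
    | inr a =>
      cases b with
      | inl b =>
        exfalso
        have hab' : g a = q b := hab
        exact hqP _ (hS b.2) _ (hS a.2) hab'.symm
      | inr b =>
        have hab' : g a = g b := hab
        exact congrArg Sum.inr (Subtype.ext (g.injective hab'))
  obtain ⟨s2, s21, s22, s23⟩ := exists_swap_fam _ _ (hinj {b | b ∈ B \ A ∧ g b ∈ A} (fun b hb => hb.1))
  obtain ⟨s3, s31, s32, s33⟩ := exists_swap_fam _ _ (hinj {b | b ∈ B \ A ∧ g b ∉ A} (fun b hb => hb.1))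
  have m1 : s1 ∈ M := by
    apply hB
    intro x hx
    apply s13
    · intro h
      exact hx h.1
    · rintro ⟨b, hb, rfl⟩
      exact hx (hqB b hb)
  have m2 : s2 ∈ M := by
    apply hA
    intro x hx
    apply s23
    · rintro ⟨b, rfl⟩
      exact hx (hqA b b.2.1)
    · rintro ⟨b, rfl⟩
      exact hx b.2.2
  have m3 : s3 ∈ M := by
    apply hB
    intro x hx
    apply s33
    · rintro ⟨b, rfl⟩
      exact hx (hqB b b.2.1)
    · rintro ⟨b, rfl⟩
      rcases hgAB b (Or.inr b.2.1.1) with h | h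
      · exact b.2.2 h
      · exact hx h
  have hv : ∀ b ∈ B \ A, (s3 * s2 * s1) b = g b := by
    intro b hb
    rw [Equiv.Perm.mul_apply, Equiv.Perm.mul_apply, s11 b hb]
    by_cases hgb : g b ∈ A
    · have h2 : s2 (q b) = g b := s21 ⟨b, hb, hgb⟩
      rw [h2]
      apply s33
      · rintro ⟨c, hc⟩
        have hc' : q c = g b := hc
        exact hqP c c.2.1 b hb hc'
      · rintro ⟨c, hc⟩
        have hc' : g c = g b := hc
        exact c.2.2 (by rw [hc']; exact hgb)
    · have h2 : s2 (q b) = q b := by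
        apply s23
        · rintro ⟨c, hc⟩
          have hc' : q c = q b := hc
          have := hq c.2.1 hb hc'
          apply hgb
          rw [← this]
          exact c.2.2
        · rintro ⟨c, hc⟩
          have hc' : g c = q b := hc
          exact hqP b hb c c.2.1 hc'.symm
      rw [h2]
      exact s31 ⟨b, hb, hgb⟩
  have mv : s3 * s2 * s1 ∈ M := M.mul_mem (M.mul_mem m3 m2) m1
  have hout : ∀ x ∉ A ∪ B, (s3 * s2 * s1) x = x := by
    intro x hx
    have hxA : x ∉ A := fun h => hx (Or.inl h)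
    have hxB : x ∉ B := fun h => hx (Or.inr h)
    have e1 : s1 x = x := by
      apply s13
      · intro h
        exact hxB h.1
      · rintro ⟨b, hb, rfl⟩
        exact hxB (hqB b hb)
    have e2 : s2 x = x := by
      apply s23
      · rintro ⟨b, rfl⟩
        exact hxA (hqA b b.2.1)
      · rintro ⟨b, rfl⟩
        exact hxA b.2.2
    have e3 : s3 x = x := by
      apply s33
      · rintro ⟨b, rfl⟩
        exact hxB (hqB b b.2.1)
      · rintro ⟨b, rfl⟩
        exact hx (hgAB b (Or.inr b.2.1.1))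
    rw [Equiv.Perm.mul_apply, Equiv.Perm.mul_apply, e1, e2, e3]
  have mw : (s3 * s2 * s1)⁻¹ * g ∈ M := by
    apply hA
    intro x hx
    rw [Equiv.Perm.mul_apply, Equiv.Perm.inv_eq_iff_eq]
    by_cases hxB : x ∈ B
    · exact (hv x ⟨hxB, hx⟩).symm
    · have : x ∉ A ∪ B := by
        rintro (h | h)
        · exact hx h
        · exact hxB h
      rw [hg x this, hout x this]
  have : g = (s3 * s2 * s1) * ((s3 * s2 * s1)⁻¹ * g) := by group
  rw [this]
  exact M.mul_mem mv mw

theorem t1 : T1.{u} := by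
  intro Ω _ M A B hAB hA hB g hg
  have hinf : ℵ₀ ≤ #Ω := Cardinal.aleph0_le_mk Ω
  by_cases h : #↥((A ∩ B) \ g '' (B \ A)) = #Ω
  · apply t1_aux M A B hA hB g hg
    rw [h]
    exact Cardinal.mk_set_le _
  · have hlt : #↥((A ∩ B) \ g '' (B \ A)) < #Ω := lt_of_le_of_ne (Cardinal.mk_set_le _) h
    have hinter : #↥((A ∩ B) ∩ g '' (B \ A)) = #Ω := by
      by_contra h2
      have hlt2 : #↥((A ∩ B) ∩ g '' (B \ A)) < #Ω := lt_of_le_of_ne (Cardinal.mk_set_le _) h2
      have h3 : #↥(A ∩ B) ≤ #↥((A ∩ B) ∩ g '' (B \ A)) + #↥((A ∩ B) \ g '' (B \ A)) := by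
        conv_lhs => rw [← Set.inter_union_sdiff (A ∩ B) (g '' (B \ A))]
        exact Cardinal.mk_union_le _ _
      rw [hAB] at h3
      exact absurd (lt_of_le_of_lt h3 (Cardinal.add_lt_of_lt hinf hlt2 hlt)) (lt_irrefl _)
    have hsub : (A ∩ B) ∩ g '' (B \ A) ⊆ (B ∩ A) \ g '' (A \ B) := by
      rintro x ⟨⟨hxA, hxB⟩, b, hb, rfl⟩
      refine ⟨⟨hxB, hxA⟩, ?_⟩
      rintro ⟨a, ha, hab⟩
      have := g.injective hab
      rw [this] at ha
      exact hb.2 ha.1
    apply t1_aux M B A hB hA g (fun x hx => hg x (fun h => hx (Or.symm h)))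
    calc #↥(A \ B) ≤ #Ω := Cardinal.mk_set_le _
      _ = #↥((A ∩ B) ∩ g '' (B \ A)) := hinter.symm
      _ ≤ _ := Cardinal.mk_le_mk_of_subset hsub

end H883F
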