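import Mathlib

set_option autoImplicit false

namespace Pool.Agent.H760R3.Unif

open Finset

/-- fibres of a surjective additive homomorphism to `ZMod p` -/
theorem card_fiber_mul {W : Type} [AddGroup W] [Fintype W] {p : ℕ} [NeZero p]
    (f : W →+ ZMod p) (hf : Function.Surjective f) (c : ZMod p) :
    (univ.filter (fun w => f w = c)).card * p = Fintype.card W := by
  classical
  have h : ∀ d : ZMod p, (univ.filter (fun w => f w = d)).card
      = (univ.filter (fun w => f w = c)).card := by
    intro d
    exact AddMonoidHom.card_fiber_eq_of_mem_range f (hf d) (hf c)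
  have h2 : Fintype.card W = ∑ d : ZMod p, (univ.filter (fun w => f w = d)).card := by
    rw [← Finset.card_univ (α := W)]
    exact Finset.card_eq_sum_card_fiberwise (fun _ _ => by simp)
  rw [h2, Finset.sum_congr rfl (fun d _ => h d), Finset.sum_const, Finset.card_univ,
    ZMod.card, smul_eq_mul, mul_comm]

/-- the linear form `v ↦ ∑ v x * d x` -/
def form {I : Type} [Fintype I] {p : ℕ} (d : I → ZMod p) : (I → ZMod p) →+ ZMod p where
  toFun v := ∑ x, v x * d x
  map_zero' := by simp
  map_add' v w := by simp [add_mul, Finset.sum_add_distrib]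

theorem form_surj {I : Type} [Fintype I] [DecidableEq I] {p : ℕ} [Fact p.Prime]
    (d : I → ZMod p) (hd : d ≠ 0) : Function.Surjective (form d) := by
  obtain ⟨x, hx⟩ : ∃ x, d x ≠ 0 := by
    by_contra h
    push Not at h
    exact hd (funext h)
  intro c
  refine ⟨Pi.single x (c * (d x)⁻¹), ?_⟩
  show ∑ y, (Pi.single x (c * (d x)⁻¹) : I → ZMod p) y * d y = c
  rw [Finset.sum_eq_single x]
  · simp [hx]
  · intro y _ hy
    simp [Pi.single_eq_of_ne hy]
  · intro h
    exact absurd (mem_univ x) h

/-- If every non-trivial linear form is equidistributed on the multiset `f(S)`, then `p ^ |I|`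
divides `|S|`. -/
theorem pow_dvd_card {I : Type} [Fintype I] [DecidableEq I] {p : ℕ} [Fact p.Prime]
    {ι : Type} (S : Finset ι) (f : ι → I → ZMod p)
    (h : ∀ v : I → ZMod p, v ≠ 0 → ∀ c : ZMod p,
      (S.filter (fun s => ∑ x, v x * f s x = c)).card * p = S.card) :
    p ^ (Fintype.card I) ∣ S.card := by
  classical
  have hp : 1 < p := (Fact.out : p.Prime).one_lt
  set w : I → ZMod p := 0 with hw
  set t0 := (S.filter (fun s => f s = w)).card with ht0
  have hcardV : Fintype.card (I → ZMod p) = p ^ (Fintype.card I) := by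
    simp [ZMod.card]
  -- double count
  have key : ∑ v : I → ZMod p, (S.filter (fun s => ∑ x, v x * f s x = 0)).card
      = ∑ s ∈ S, (univ.filter (fun v : I → ZMod p => ∑ x, v x * f s x = 0)).card := by
    simp only [Finset.card_filter]
    rw [Finset.sum_comm]
  have hL : (∑ v : I → ZMod p, (S.filter (fun s => ∑ x, v x * f s x = 0)).card) * p
      = S.card * p + (p ^ (Fintype.card I) - 1) * S.card := by
    rw [← Finset.add_sum_erase univ _ (mem_univ (0 : I → ZMod p)), add_mul]
    congr 1
    · simp
    · rw [Finset.sum_mul, Finset.sum_congr rfl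
        (fun v hv => h v (by simpa using (Finset.mem_erase.1 hv).1) 0), Finset.sum_const,
        Finset.card_erase_of_mem (mem_univ _), Finset.card_univ, hcardV, smul_eq_mul]
  have hR : (∑ s ∈ S, (univ.filter (fun v : I → ZMod p => ∑ x, v x * f s x = 0)).card) * p
      = t0 * (p ^ (Fintype.card I) * p) + (S.card - t0) * p ^ (Fintype.card I) := by
    rw [← Finset.sum_filter_add_sum_filter_not S (fun s => f s = w), add_mul]
    congr 1
    · rw [Finset.sum_congr rfl (g := fun _ => p ^ (Fintype.card I))]
      · rw [Finset.sum_const, smul_eq_mul, mul_assoc]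
      · intro s hs
        have hs' : f s = w := (Finset.mem_filter.1 hs).2
        rw [Finset.filter_true_of_mem]
        · rw [Finset.card_univ, hcardV]
        · intro v _
          simp [hs', hw]
    · rw [Finset.sum_mul, Finset.sum_congr rfl (g := fun _ => p ^ (Fintype.card I))]
      · rw [Finset.sum_const, smul_eq_mul]
        congr 1
        have := Finset.card_filter_add_card_filter_not (s := S) (fun s => f s = w)
        omega
      · intro s hs
        have hs' : f s ≠ w := (Finset.mem_filter.1 hs).2
        have := card_fiber_mul (form (f s)) (form_surj (f s) hs') 0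
        rw [hcardV] at this
        exact this
  rw [key, hR] at hL
  have ht0le : t0 ≤ S.card := Finset.card_filter_le _ _
  have hq : 0 < p ^ (Fintype.card I) := by positivity
  refine ⟨t0, ?_⟩
  -- integer arithmetic
  have h1 : ((S.card - t0 : ℕ) : ℤ) = S.card - t0 := by
    push_cast [Nat.cast_sub ht0le]; ring
  have h2 : ((p ^ (Fintype.card I) - 1 : ℕ) : ℤ) = (p : ℤ) ^ (Fintype.card I) - 1 := by
    rw [Nat.cast_sub (by omega)]
    push_cast
    ring
  have hZ : (t0 : ℤ) * ((p : ℤ) ^ (Fintype.card I) * p)
      + (S.card - t0) * (p : ℤ) ^ (Fintype.card I)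
      = S.card * p + ((p : ℤ) ^ (Fintype.card I) - 1) * S.card := by
    have := congrArg (fun n : ℕ => (n : ℤ)) hL
    push_cast [h1, h2] at this
    linarith
  have hZ2 : ((p : ℤ) - 1) * S.card = ((p : ℤ) - 1) * ((p : ℤ) ^ (Fintype.card I) * t0) := by
    linarith
  have hp0 : (p : ℤ) - 1 ≠ 0 := by
    have : (1 : ℤ) < p := by exact_mod_cast hp
    linarith
  have := mul_left_cancel₀ hp0 hZ2
  exact_mod_cast this

end Pool.Agent.H760R3.Unif
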