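import Mathlib

set_option autoImplicit false

namespace Pool.Agent.H760R3.Unif

open Finset

theorem exists_le_sum {C : Type} [DecidableEq C] (s : Finset C) (f : C → ℕ) :
    ∀ t : ℕ, t ≤ ∑ c ∈ s, f c → ∃ k : C → ℕ, (∀ c, k c ≤ f c) ∧ ∑ c ∈ s, k c = t := by
  induction s using Finset.induction_on with
  | empty =>
    intro t ht
    refine ⟨fun _ => 0, fun _ => Nat.zero_le _, ?_⟩
    simp at ht
    simp [ht]
  | insert a s ha ih =>
    intro t ht
    rw [Finset.sum_insert ha] at ht
    obtain ⟨k, hk1, hk2⟩ := ih (t - min t (f a)) (by omega)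
    refine ⟨Function.update k a (min t (f a)), ?_, ?_⟩
    · intro c
      by_cases hc : c = a
      · subst hc; simp
      · simp [Function.update_of_ne hc, hk1]
    · rw [Finset.sum_insert ha, Function.update_self]
      rw [Finset.sum_congr rfl (g := k)]
      · rw [hk2]; omega
      · intro x hx
        rw [Function.update_of_ne]
        rintro rfl
        exact ha hx

/-- block index set -/
abbrev II (L t s : ℕ) : Type := (Fin t × Fin L) ⊕ Fin s
abbrev JJ (t s : ℕ) : Type := Fin t ⊕ Fin s

/-- the block map -/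
def kap (L t s : ℕ) : II L t s → JJ t s := Sum.map Prod.fst id

theorem kap_surj (L t s : ℕ) (hL : 0 < L) : Function.Surjective (kap L t s) := by
  rintro (a | b)
  · exact ⟨Sum.inl (a, ⟨0, hL⟩), rfl⟩
  · exact ⟨Sum.inr b, rfl⟩

/-- every colouring with at most `P` colours can be permuted to be constant on blocks -/
theorem exists_perm {C : Type} [Fintype C] [DecidableEq C] (L t s P : ℕ) (hL : 0 < L)
    (hC : Fintype.card C ≤ P) (hs : P * L ≤ s) (v : II L t s → C) :
    ∃ (ρ : Equiv.Perm (II L t s)) (u : JJ t s → C), ∀ x, v (ρ x) = u (kap L t s x) := by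
  classical
  set m : C → ℕ := fun c => Fintype.card {x // v x = c} with hm
  have hsum : ∑ c, m c = t * L + s := by
    have h1 : ∑ c, m c = Fintype.card (Σ c, {x // v x = c}) := by
      rw [Fintype.card_sigma]
    rw [h1, Fintype.card_congr (Equiv.sigmaFiberEquiv v)]
    simp
  have hdiv : t ≤ ∑ c, m c / L := by
    have h1 : ∑ c, m c ≤ ∑ c, (L * (m c / L) + L) := by
      apply Finset.sum_le_sum
      intro c _
      have := Nat.div_add_mod (m c) L
      have := Nat.mod_lt (m c) hL
      omega
    rw [Finset.sum_add_distrib, ← Finset.mul_sum, Finset.sum_const, Finset.card_univ,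
      smul_eq_mul, hsum] at h1
    have h2 : Fintype.card C * L ≤ P * L := Nat.mul_le_mul_right _ hC
    have h3 : L * t ≤ L * ∑ c, m c / L := by
      have : t * L = L * t := mul_comm _ _
      omega
    exact Nat.le_of_mul_le_mul_left h3 hL
  obtain ⟨k, hk1, hk2⟩ := exists_le_sum (univ : Finset C) (fun c => m c / L) t hdiv
  have hkm : ∀ c, k c * L ≤ m c := fun c =>
    le_trans (Nat.mul_le_mul_right _ (hk1 c)) (Nat.div_mul_le_self _ _)
  have hr : ∑ c, (m c - k c * L) = s := by
    have h1 : ∑ c, (m c - k c * L) + ∑ c, k c * L = ∑ c, m c := by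
      rw [← Finset.sum_add_distrib]
      exact Finset.sum_congr rfl (fun c _ => Nat.sub_add_cancel (hkm c))
    rw [hsum, ← Finset.sum_mul, hk2] at h1
    omega
  -- equivalences
  have E : ∀ c, Nonempty ({x // v x = c} ≃ (Fin (k c) × Fin L) ⊕ Fin (m c - k c * L)) := by
    intro c
    refine ⟨Fintype.equivOfCardEq ?_⟩
    simp only [Fintype.card_sum, Fintype.card_prod, Fintype.card_fin]
    have := hkm c
    show m c = _
    omega
  have E1 : Nonempty (Fin t ≃ Σ c, Fin (k c)) := by
    refine ⟨Fintype.equivOfCardEq ?_⟩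
    simp [Fintype.card_sigma, hk2]
  have E2 : Nonempty (Fin s ≃ Σ c, Fin (m c - k c * L)) := by
    refine ⟨Fintype.equivOfCardEq ?_⟩
    rw [Fintype.card_sigma]
    simp [hr]
  let E' := fun c => (E c).some
  let e1 := E1.some
  let e2 := E2.some
  let Φ : II L t s ≃ II L t s :=
    ((Equiv.sumCongr (Equiv.prodCongr e1 (Equiv.refl (Fin L))) e2).trans
      ((Equiv.sumCongr (Equiv.sigmaProdDistrib (fun c => Fin (k c)) (Fin L))
        (Equiv.refl (Σ c, Fin (m c - k c * L)))).trans
        ((Equiv.sigmaSumDistrib (fun c => Fin (k c) × Fin L)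
          (fun c => Fin (m c - k c * L))).symm.trans
          ((Equiv.sigmaCongrRight (fun c => (E' c).symm)).trans (Equiv.sigmaFiberEquiv v)))))
  refine ⟨Φ, Sum.elim (fun a => (e1 a).1) (fun b => (e2 b).1), ?_⟩
  rintro (⟨a, l⟩ | b)
  · show v ((E' (e1 a).1).symm (Sum.inl ((e1 a).2, l))).1 = (e1 a).1
    exact ((E' (e1 a).1).symm (Sum.inl ((e1 a).2, l))).2
  · show v ((E' (e2 b).1).symm (Sum.inr (e2 b).2)).1 = (e2 b).1
    exact ((E' (e2 b).1).symm (Sum.inr (e2 b).2)).2

end Pool.Agent.H760R3.Unif
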