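import Pool.Agent.H760R3.UnifA
import Pool.Agent.H760R3.UnifB

set_option autoImplicit false

namespace Pool.Agent.H760R3.Unif

open Finset

/-- the group `(∏ F_{p i}^I) ⋊ Sym(I)` -/
@[ext] structure Gp (k : ℕ) (p : Fin k → ℕ) (I : Type) where
  a : (i : Fin k) → I → ZMod (p i)
  s : Equiv.Perm I

variable {k : ℕ} {p : Fin k → ℕ} {I J : Type}

instance : Mul (Gp k p I) := ⟨fun g h => ⟨fun i x => g.a i x + h.a i (g.s.symm x), g.s * h.s⟩⟩
instance : One (Gp k p I) := ⟨⟨fun _ _ => 0, 1⟩⟩
instance : Inv (Gp k p I) := ⟨fun g => ⟨fun i x => - g.a i (g.s x), g.s⁻¹⟩⟩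

theorem mul_a (g h : Gp k p I) (i : Fin k) (x : I) :
    (g * h).a i x = g.a i x + h.a i (g.s.symm x) := rfl
theorem mul_s (g h : Gp k p I) : (g * h).s = g.s * h.s := rfl
theorem one_a (i : Fin k) (x : I) : (1 : Gp k p I).a i x = 0 := rfl
theorem one_s : (1 : Gp k p I).s = 1 := rfl
theorem inv_a (g : Gp k p I) (i : Fin k) (x : I) : (g⁻¹).a i x = - g.a i (g.s x) := rfl
theorem inv_s (g : Gp k p I) : (g⁻¹).s = g.s⁻¹ := rfl

instance : Group (Gp k p I) := Group.ofLeftAxioms
  (by
    intro g h l
    apply Gp.ext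
    · funext i x
      simp only [mul_a, mul_s, add_assoc]
      rfl
    · simp only [mul_s, mul_assoc])
  (by
    intro g
    apply Gp.ext
    · funext i x
      simp only [mul_a, one_a, one_s, zero_add]
      rfl
    · simp only [mul_s, one_s, one_mul])
  (by
    intro g
    apply Gp.ext
    · funext i x
      simp only [mul_a, inv_a, inv_s, one_a]
      show - g.a i (g.s x) + g.a i (g.s x) = 0
      simp
    · simp only [mul_s, inv_s, one_s, inv_mul_cancel])

def gpEquiv : Gp k p I ≃ ((i : Fin k) → I → ZMod (p i)) × Equiv.Perm I where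
  toFun g := (g.a, g.s)
  invFun x := ⟨x.1, x.2⟩
  left_inv _ := rfl
  right_inv _ := rfl

/-- the point set -/
structure Pt (k : ℕ) (p : Fin k → ℕ) (I J : Type) where
  s : Equiv.Perm I
  z : (i : Fin k) → J → ZMod (p i)

def ptEquiv : Pt k p I J ≃ Equiv.Perm I × ((i : Fin k) → J → ZMod (p i)) where
  toFun g := (g.s, g.z)
  invFun x := ⟨x.1, x.2⟩
  left_inv _ := rfl
  right_inv _ := rfl

section
variable [Fintype I] [DecidableEq I] [Fintype J] [DecidableEq J]

/-- block sums of `a` along `ρ` -/
def S (κ : I → J) (a : (i : Fin k) → I → ZMod (p i)) (ρ : Equiv.Perm I) :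
    (i : Fin k) → J → ZMod (p i) :=
  fun i j => ∑ x ∈ univ.filter (fun x => κ x = j), a i (ρ x)

/-- the action -/
@[reducible] def act (κ : I → J) : MulAction (Gp k p I) (Pt k p I J) where
  smul g x := ⟨g.s * x.s, fun i j => x.z i j + S κ g.a (g.s * x.s) i j⟩
  one_smul x := by
    show (⟨1 * x.s, _⟩ : Pt k p I J) = x
    cases x with
    | mk s z =>
      congr 1
      funext i j
      show z i j + S κ (1 : Gp k p I).a _ i j = z i j
      simp [S, one_a]
  mul_smul g h x := by
    cases x with
    | mk s z =>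
      show (⟨g.s * h.s * s, _⟩ : Pt k p I J) = ⟨g.s * (h.s * s), _⟩
      congr 1
      funext i j
      show z i j + S κ (g * h).a (g.s * h.s * s) i j
        = z i j + S κ h.a (h.s * s) i j + S κ g.a (g.s * (h.s * s)) i j
      rw [add_assoc]
      congr 1
      simp only [S, mul_a]
      rw [Finset.sum_add_distrib, add_comm]
      congr 1
      refine Finset.sum_congr rfl (fun x _ => ?_)
      simp [Equiv.Perm.mul_apply]

theorem act_s (κ : I → J) (g : Gp k p I) (x : Pt k p I J) :
    ((act κ).smul g x).s = g.s * x.s := rfl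

theorem act_z (κ : I → J) (g : Gp k p I) (x : Pt k p I J) :
    ((act κ).smul g x).z = fun i j => x.z i j + S κ g.a (g.s * x.s) i j := rfl

theorem act_trans (κ : I → J) (hκ : Function.Surjective κ) :
    @MulAction.IsPretransitive (Gp k p I) (Pt k p I J) (act κ).toSMul := by
  letI := act (k := k) (p := p) κ
  refine ⟨fun x y => ?_⟩
  obtain ⟨r, hr⟩ := hκ.hasRightInverse
  classical
  refine ⟨⟨fun i w => ∑ j, if y.s (r j) = w then y.z i j - x.z i j else 0,
    y.s * x.s⁻¹⟩, ?_⟩
  cases x with
  | mk xs xz =>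
    cases y with
    | mk ys yz =>
      show (⟨ys * xs⁻¹ * xs, _⟩ : Pt k p I J) = ⟨ys, _⟩
      have h1 : ys * xs⁻¹ * xs = ys := by simp
      congr 1
      funext i j
      show xz i j + S κ _ (ys * xs⁻¹ * xs) i j = yz i j
      rw [h1]
      simp only [S]
      rw [Finset.sum_comm]
      rw [Finset.sum_eq_single j]
      · rw [Finset.sum_eq_single (r j)]
        · simp
        · intro b _ hb
          have : ys (r j) ≠ ys b := fun h => hb (ys.injective h).symm
          simp [this]
        · intro h
          exact absurd (by simp [hr j]) h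
      · intro b _ hb
        apply Finset.sum_eq_zero
        intro x hx
        have hx' : κ x = j := (Finset.mem_filter.1 hx).2
        have : ys (r b) ≠ ys x := by
          intro h
          have h2 : r b = x := ys.injective h
          rw [← h2, hr b] at hx'
          exact hb hx'
        simp [this]
      · intro h
        exact absurd (mem_univ j) h

end

end Pool.Agent.H760R3.Unif
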