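import Pool.Agent.H760R3.UnifD

set_option autoImplicit false

namespace Pool.Agent.H760R3.Unif

open Finset

theorem nth_prime_le (i : ℕ) : Nat.nth Nat.Prime i ≤ 2 ^ (i + 1) := by
  induction i with
  | zero => simp [Nat.nth_prime_zero_eq_two]
  | succ i ih =>
    have hpr : (Nat.nth Nat.Prime i).Prime := Nat.prime_nth_prime i
    obtain ⟨q, hq, h1, h2⟩ := Nat.exists_prime_lt_and_le_two_mul _ hpr.ne_zero
    have hcount : Nat.nth Nat.Prime (Nat.count Nat.Prime q) = q := Nat.nth_count hq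
    have hlt : i < Nat.count Nat.Prime q := by
      by_contra hcon
      have h5 : Nat.nth Nat.Prime (Nat.count Nat.Prime q) ≤ Nat.nth Nat.Prime i :=
        (Nat.nth_monotone Nat.infinite_setOfPred_prime) (Nat.le_of_not_lt hcon)
      rw [hcount] at h5
      omega
    have h3 : Nat.nth Nat.Prime (i + 1) ≤ q := by
      rw [← hcount]
      exact (Nat.nth_monotone Nat.infinite_setOfPred_prime) hlt
    calc Nat.nth Nat.Prime (i + 1) ≤ q := h3
      _ ≤ 2 * Nat.nth Nat.Prime i := h2
      _ ≤ 2 * 2 ^ (i + 1) := Nat.mul_le_mul_left _ ih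
      _ = 2 ^ (i + 1 + 1) := by ring

theorem factorial_le_prod (k : ℕ) : k.factorial ≤ ∏ i : Fin k, Nat.nth Nat.Prime i := by
  rw [Fin.prod_univ_eq_prod_range (fun i => Nat.nth Nat.Prime i) k,
    ← Finset.prod_range_add_one_eq_factorial]
  apply Finset.prod_le_prod'
  intro i _
  have := Nat.add_two_le_nth_prime i
  omega

theorem exists_k (a B : ℕ) : ∃ k : ℕ, B * a ^ k < k.factorial := by
  have h := FloorSemiring.tendsto_pow_div_factorial_atTop (a : ℝ)
  have h2 : ∀ᶠ n : ℕ in Filter.atTop, (a : ℝ) ^ n / n.factorial < 1 / (B + 1) := by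
    apply h.eventually_lt_const
    positivity
  obtain ⟨k, hk⟩ := h2.exists
  refine ⟨k, ?_⟩
  have hf : (0 : ℝ) < k.factorial := by exact_mod_cast k.factorial_pos
  rw [div_lt_div_iff₀ hf (by positivity)] at hk
  have h3 : ((B * a ^ k : ℕ) : ℝ) < k.factorial := by
    push_cast
    have : (0 : ℝ) ≤ (a : ℝ) ^ k := by positivity
    nlinarith
  exact_mod_cast h3

theorem arith (C k : ℕ) (hC : 1 ≤ C) (M t : ℕ) (ht : t = 2 ^ k * (4 * C))
    (hk : ((4 * C) * (4 * C + 1)) ^ (2 * C) * (2 ^ (2 * C)) ^ k < M) :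
    ((t * (4 * C) + t).factorial * M ^ (t + t)) ^ C < M ^ (t * (4 * C) + t) := by
  set m := t * (4 * C) + t with hm
  have htpos : 0 < t := by rw [ht]; positivity
  have hmpos : 0 < m := by omega
  have hmM : m ^ (2 * C) < M := by
    have : m ^ (2 * C) = ((4 * C) * (4 * C + 1)) ^ (2 * C) * (2 ^ (2 * C)) ^ k := by
      have e1 : m = (4 * C) * (4 * C + 1) * 2 ^ k := by rw [hm, ht]; ring
      rw [e1, mul_pow]
      congr 1
      rw [← pow_mul, ← pow_mul, mul_comm k]
    rw [this]; exact hk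
  have hMpos : 0 < M := by omega
  have hfac : m.factorial ^ (2 * C) < M ^ m := by
    calc m.factorial ^ (2 * C) ≤ (m ^ m) ^ (2 * C) :=
          Nat.pow_le_pow_left (Nat.factorial_le_pow m) _
      _ = (m ^ (2 * C)) ^ m := by rw [← pow_mul, ← pow_mul, mul_comm]
      _ < M ^ m := Nat.pow_lt_pow_left hmM hmpos.ne'
  have hsq : ((m.factorial * M ^ (t + t)) ^ C) ^ 2 < (M ^ m) ^ 2 := by
    have e1 : ((m.factorial * M ^ (t + t)) ^ C) ^ 2
        = m.factorial ^ (2 * C) * M ^ (t * (4 * C)) := by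
      rw [mul_pow, mul_pow, ← pow_mul, ← pow_mul, ← pow_mul]
      congr 2 <;> ring
    have e2 : (M ^ m) ^ 2 = M ^ (m + t) * M ^ (t * (4 * C)) := by
      rw [← pow_mul, ← pow_add]
      congr 1
      rw [hm]; ring
    rw [e1, e2]
    apply Nat.mul_lt_mul_of_pos_right _ (by positivity)
    exact lt_of_lt_of_le hfac (Nat.pow_le_pow_right hMpos (by omega))
  exact lt_of_pow_lt_pow_left₀ 2 (Nat.zero_le _) hsq

theorem main : ¬ (∃ c : ℝ, 0 < c ∧
      ∀ (G : Type) (X : Type) [Group G] [Fintype G] [MulAction G X] [Fintype X]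
        [DecidableEq X] [Nonempty X],
        MulAction.IsPretransitive G X →
          ∃ T : Finset G, T.Nonempty ∧
            (∀ x y : X, (T.filter (fun g => g • x = y)).card * Fintype.card X = T.card) ∧
            (T.card : ℝ) ≤ (Fintype.card X : ℝ) ^ c) := by
  classical
  rintro ⟨c, hc, h⟩
  set C : ℕ := ⌈c⌉₊ with hCdef
  have hC1 : 1 ≤ C := Nat.one_le_ceil_iff.2 hc
  have hcC : c ≤ C := Nat.le_ceil c
  obtain ⟨k, hk⟩ := exists_k (2 ^ (2 * C)) (((4 * C) * (4 * C + 1)) ^ (2 * C))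
  let p : Fin k → ℕ := fun i => Nat.nth Nat.Prime i
  haveI hpr : ∀ i, Fact (p i).Prime := fun i => ⟨Nat.prime_nth_prime _⟩
  have hpinj : Function.Injective p := by
    intro i j hij
    exact Fin.ext ((Nat.nth_injective Nat.infinite_setOfPred_prime) hij)
  set t : ℕ := 2 ^ k * (4 * C) with ht
  let I := II (4 * C) t t
  let J := JJ t t
  let κ : I → J := kap (4 * C) t t
  have hκ : Function.Surjective κ := kap_surj _ _ _ (by omega)
  letI iact : MulAction (Gp k p I) (Pt k p I J) := act κ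
  letI iG : Fintype (Gp k p I) := Fintype.ofEquiv _ gpEquiv.symm
  letI iX : Fintype (Pt k p I J) := Fintype.ofEquiv _ ptEquiv.symm
  haveI iN : Nonempty (Pt k p I J) := ⟨⟨1, fun _ _ => 0⟩⟩
  obtain ⟨T, hne, hT, hle⟩ := h (Gp k p I) (Pt k p I J) (act_trans κ hκ)
  have hcardX : Fintype.card (Pt k p I J)
      = (t * (4 * C) + t).factorial * (∏ i, p i) ^ (t + t) := by
    rw [Fintype.card_congr ptEquiv, Fintype.card_prod, Fintype.card_perm]
    congr 1
    · simp [I]
    · rw [Fintype.card_pi]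
      simp only [Fintype.card_fun, ZMod.card]
      rw [Finset.prod_pow]
      simp [J]
  have hcardI : Fintype.card I = t * (4 * C) + t := by simp [I]
  have hcol : ∀ (i : Fin k) (v : I → ZMod (p i)),
      ∃ (ρ : Equiv.Perm I) (u : J → ZMod (p i)), ∀ x, v (ρ x) = u (κ x) := by
    intro i v
    apply exists_perm (4 * C) t t (2 ^ k) (by omega) _ (le_of_eq ht.symm) v
    rw [ZMod.card]
    exact le_trans (nth_prime_le i) (Nat.pow_le_pow_right (by norm_num) i.2)
  have hlow := card_lower hpinj κ hcol T (Fintype.card (Pt k p I J)) Fintype.card_pos hne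
    (by
      intro x y inst
      have := hT x y
      rw [← this]
      congr 2
      ext g
      simp only [Finset.mem_filter]
      rfl)
  have hM : k.factorial ≤ ∏ i, p i := factorial_le_prod k
  have har := arith C k hC1 (∏ i, p i) t ht (lt_of_lt_of_le hk hM)
  rw [← hcardX, ← hcardI] at har
  have h1 : (Fintype.card (Pt k p I J)) ^ C < T.card := lt_of_lt_of_le har hlow
  have h2 : ((Fintype.card (Pt k p I J) : ℝ)) ^ c ≤ (Fintype.card (Pt k p I J) : ℝ) ^ C := by
    rw [← Real.rpow_natCast]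
    apply Real.rpow_le_rpow_of_exponent_le _ hcC
    exact_mod_cast Fintype.card_pos
  have h3 : ((Fintype.card (Pt k p I J) : ℝ)) ^ C < T.card := by exact_mod_cast h1
  linarith

end Pool.Agent.H760R3.Unif
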